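import Mathlib
import Pool.Agent.Lib.MP_d49ebf_nt.LinearGap

set_option autoImplicit false

namespace Pool.Agent.Results.MP_d49ebf_nt.UnboundedRatio

/-- Let `a 0 < a 1 < a 2 < ...` be positive integers none of which is a sum of distinct smaller
ones. Then for every `C` the gap `a (n + 1) - a n` is at least `C * (n + 1)` for infinitely
many `n`. -/
theorem result :
    ∀ a : ℕ → ℕ, StrictMono a → (∀ n, 0 < a n) →
      (∀ n, ∀ S : Finset ℕ, (∀ b ∈ S, b ∈ Set.range a ∧ b < a n) → ∑ b ∈ S, b ≠ a n) →
      ∀ C : ℕ, ∃ᶠ n in Filter.atTop, a n + C * (n + 1) ≤ a (n + 1) := by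
  classical
  intro a hmono hpos hfree C
  by_contra hcon
  rw [Filter.not_frequently, Filter.eventually_atTop] at hcon
  obtain ⟨n0, hn0⟩ := hcon
  have H : Pool.Agent.Lib.MP_d49ebf_nt.HypC (2 * C + 1) a := by
    refine ⟨hmono, ?_, n0 + 1, ?_⟩
    · intro n S hS hsum
      apply hfree n (S.image a)
      · intro b hb
        rw [Finset.mem_image] at hb
        obtain ⟨i, hi, rfl⟩ := hb
        exact ⟨⟨i, rfl⟩, hmono (hS i hi)⟩
      · rw [Finset.sum_image (fun x _ y _ h => hmono.injective h), hsum]
    · intro n hn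
      have h := hn0 n (by omega)
      push Not at h
      have h1 : C * (n + 1) ≤ (2 * C + 1) * n := by nlinarith
      omega
  exact H.false (by omega)

end Pool.Agent.Results.MP_d49ebf_nt.UnboundedRatio
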